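import Pool.Agent.R489.HB.Stm

set_option autoImplicit false

namespace Pool.Agent.R51.HB

open Finset Pool.Agent.R489.HB

section

variable {W : Type} [DecidableEq W]

lemma mem_edg {Φ : Finset (Finset W)} {e : Finset W} :
    e ∈ edg Φ ↔ ∃ f ∈ Φ, e ⊆ f ∧ e.card = 2 := by
  simp [edg, Finset.mem_biUnion, Finset.mem_powersetCard]

lemma mem_vts {Φ : Finset (Finset W)} {v : W} : v ∈ vts Φ ↔ ∃ f ∈ Φ, v ∈ f := by
  simp [vts, Finset.mem_biUnion]

lemma mem_fc {Φ : Finset (Finset W)} {e f : Finset W} : f ∈ fc Φ e ↔ f ∈ Φ ∧ e ⊆ f := by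
  simp [fc]

/-- all faces at `v` are rainbow -/
def Rb (Φ : Finset (Finset W)) (a : W → Fin 3) (v : W) : Prop :=
  ∀ f ∈ Φ, v ∈ f → ∀ p ∈ f, ∀ q ∈ f, p ≠ q → a p ≠ a q

lemma pair_sub {f : Finset W} {p q : W} (hp : p ∈ f) (hq : q ∈ f) : ({p, q} : Finset W) ⊆ f := by
  intro x hx
  simp only [Finset.mem_insert, Finset.mem_singleton] at hx
  rcases hx with rfl | rfl <;> assumption

lemma pair_edg {Φ : Finset (Finset W)} {f : Finset W} {p q : W} (hf : f ∈ Φ) (hp : p ∈ f)
    (hq : q ∈ f) (hpq : p ≠ q) : ({p, q} : Finset W) ∈ edg Φ :=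
  mem_edg.2 ⟨f, hf, pair_sub hp hq, Finset.card_pair hpq⟩

lemma eq_triple {f : Finset W} {p q r : W} (hf : f.card = 3) (hp : p ∈ f) (hq : q ∈ f)
    (hr : r ∈ f) (hpq : p ≠ q) (hpr : p ≠ r) (hqr : q ≠ r) : f = {p, q, r} := by
  symm
  apply Finset.eq_of_subset_of_card_le
  · intro x hx
    simp only [Finset.mem_insert, Finset.mem_singleton] at hx
    rcases hx with rfl | rfl | rfl <;> assumption
  · rw [hf, Finset.card_eq_three.2 ⟨p, q, r, hpq, hpr, hqr, rfl⟩]

lemma exists_third {f : Finset W} {p q : W} (hf : f.card = 3) (hp : p ∈ f) (hq : q ∈ f)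
    (hpq : p ≠ q) : ∃ r ∈ f, r ≠ p ∧ r ≠ q := by
  by_contra hcon
  push Not at hcon
  have hsub : f ⊆ {p, q} := by
    intro x hx
    simp only [Finset.mem_insert, Finset.mem_singleton]
    by_cases h1 : x = p
    · exact Or.inl h1
    · exact Or.inr (hcon x hx h1)
  have := Finset.card_le_card hsub
  rw [hf, Finset.card_pair hpq] at this
  omega

lemma not_rb {Φ : Finset (Finset W)} {T : Finset W} {a : W → Fin 3}
    (hm : ∀ e ∈ edg Φ, mono a e → e ⊆ T) {v : W} (hv : v ∉ T) (h1 : ¬ Rb Φ a v) :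
    ∃ f ∈ Φ, v ∈ f ∧ ∃ p ∈ f, ∃ q ∈ f, p ≠ q ∧ a p = a q ∧ p ∈ T ∧ q ∈ T := by
  unfold Rb at h1
  push Not at h1
  obtain ⟨f, hf, hvf, p, hp, q, hq, hpq, hap⟩ := h1
  have hsub := hm {p, q} (pair_edg hf hp hq hpq) (by
    intro x hx y hy
    simp only [Finset.mem_insert, Finset.mem_singleton] at hx hy
    rcases hx with rfl | rfl <;> rcases hy with rfl | rfl <;> simp [hap])
  exact ⟨f, hf, hvf, p, hp, q, hq, hpq, hap, hsub (by simp), hsub (by simp)⟩

lemma exc_unique {Φ : Finset (Finset W)} {T : Finset W} {a : W → Fin 3} (h : IsTri Φ)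
    (hT : T ∈ Φ) (hm : ∀ e ∈ edg Φ, mono a e → e ⊆ T) (hnm : ¬ mono a T)
    {v v' : W} (hv : v ∉ T) (hv' : v' ∉ T) (h1 : ¬ Rb Φ a v) (h2 : ¬ Rb Φ a v') : v = v' := by
  obtain ⟨f, hf, hvf, p, hp, q, hq, hpq, hap, hpT, hqT⟩ := not_rb hm hv h1
  obtain ⟨f', hf', hvf', p', hp', q', hq', hpq', hap', hpT', hqT'⟩ := not_rb hm hv' h2
  obtain ⟨r, hrT, hrp, hrq⟩ := exists_third (h.three T hT) hpT hqT hpq
  have hTeq : T = {p, q, r} := eq_triple (h.three T hT) hpT hqT hrT hpq hrp.symm hrq.symm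
  have har : a r ≠ a p := by
    intro har
    apply hnm
    intro x hx y hy
    rw [hTeq] at hx hy
    simp only [Finset.mem_insert, Finset.mem_singleton] at hx hy
    rcases hx with rfl | rfl | rfl <;> rcases hy with rfl | rfl | rfl <;> simp [har, hap]
  have hp2 : p' = p ∨ p' = q ∨ p' = r := by
    have := hpT'
    rw [hTeq] at this
    simpa using this
  have hq2 : q' = p ∨ q' = q ∨ q' = r := by
    have := hqT'
    rw [hTeq] at this
    simpa using this
  have hfc : ({p, q} : Finset W) ⊆ f' := by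
    have hpf : p ∈ f' ∧ q ∈ f' := by
      rcases hp2 with rfl | rfl | rfl <;> rcases hq2 with rfl | rfl | rfl
      · exact absurd rfl hpq'
      · exact ⟨hp', hq'⟩
      · exact absurd hap'.symm har
      · exact ⟨hq', hp'⟩
      · exact absurd rfl hpq'
      · exact absurd (hap'.symm.trans hap.symm) har
      · exact absurd hap' har
      · exact absurd (hap'.trans hap.symm) har
      · exact absurd rfl hpq'
    exact pair_sub hpf.1 hpf.2
  have hfT : f ≠ T := fun hh => hv (hh ▸ hvf)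
  have hfT' : f' ≠ T := fun hh => hv' (hh ▸ hvf')
  have hff : f = f' := by
    by_contra hne
    have hc := h.two {p, q} (pair_edg hf hp hq hpq)
    have hsub : ({T, f, f'} : Finset (Finset W)) ⊆ fc Φ {p, q} := by
      intro x hx
      simp only [Finset.mem_insert, Finset.mem_singleton] at hx
      rcases hx with rfl | rfl | rfl
      · exact mem_fc.2 ⟨hT, pair_sub hpT hqT⟩
      · exact mem_fc.2 ⟨hf, pair_sub hp hq⟩
      · exact mem_fc.2 ⟨hf', hfc⟩
    have := Finset.card_le_card hsub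
    rw [hc, Finset.card_eq_three.2 ⟨T, f, f', hfT.symm, hfT'.symm, hne, rfl⟩] at this
    omega
  subst hff
  have hpv : p ≠ v := fun hh => hv (hh ▸ hpT)
  have hqv : q ≠ v := fun hh => hv (hh ▸ hqT)
  have hfeq := eq_triple (h.three f hf) hp hq hvf hpq hpv hqv
  rw [hfeq] at hvf'
  simp only [Finset.mem_insert, Finset.mem_singleton] at hvf'
  rcases hvf' with rfl | rfl | rfl
  · exact absurd hpT hv'
  · exact absurd hqT hv'
  · rfl

/-- neighbours of `v` in the class `j` -/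
def nb (Φ : Finset (Finset W)) (a : W → Fin 3) (v : W) (j : Fin 3) : Finset W :=
  (vts Φ).filter (fun b => b ≠ v ∧ ({v, b} : Finset W) ∈ edg Φ ∧ a b = j)

lemma mem_nb {Φ : Finset (Finset W)} {a : W → Fin 3} {v b : W} {j : Fin 3} :
    b ∈ nb Φ a v j ↔ b ≠ v ∧ ({v, b} : Finset W) ∈ edg Φ ∧ a b = j := by
  unfold nb
  rw [Finset.mem_filter]
  constructor
  · exact fun hh => hh.2
  · intro hh
    refine ⟨?_, hh⟩
    obtain ⟨f, hf, hs, _⟩ := mem_edg.1 hh.2.1
    exact mem_vts.2 ⟨f, hf, hs (by simp)⟩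

/-- a rainbow face meets every class -/
lemma rainbow_mem {Φ : Finset (Finset W)} {a : W → Fin 3} (h : IsTri Φ) {v : W}
    (hr : Rb Φ a v) {f : Finset W} (hf : f ∈ Φ) (hvf : v ∈ f) (j : Fin 3) :
    ∃ b ∈ f, a b = j := by
  have hinj : Set.InjOn a (f : Set W) := by
    intro x hx y hy hxy
    by_contra hne
    exact hr f hf hvf x hx y hy hne hxy
  have hcard : (f.image a).card = 3 := by
    rw [Finset.card_image_of_injOn hinj, h.three f hf]
  have huniv : f.image a = Finset.univ := by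
    apply Finset.eq_univ_of_card
    rw [hcard]
    simp
  have : j ∈ f.image a := by rw [huniv]; exact Finset.mem_univ j
  obtain ⟨b, hb, hbj⟩ := Finset.mem_image.1 this
  exact ⟨b, hb, hbj⟩

lemma two_nb {Φ : Finset (Finset W)} {a : W → Fin 3} (h : IsTri Φ) {v : W}
    (hr : Rb Φ a v) (j : Fin 3) (hj : j ≠ a v) :
    2 * (nb Φ a v j).card = (fc Φ {v}).card := by
  have hdc := Finset.sum_card_bipartiteAbove_eq_sum_card_bipartiteBelow (s := nb Φ a v j)
    (t := fc Φ {v}) (fun (b : W) (f : Finset W) => b ∈ f)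
  have hL : ∀ b ∈ nb Φ a v j,
      (Finset.bipartiteAbove (fun (b : W) (f : Finset W) => b ∈ f) (fc Φ {v}) b).card = 2 := by
    intro b hb
    obtain ⟨hbv, hbe, _⟩ := mem_nb.1 hb
    rw [← h.two _ hbe]
    congr 1
    ext f
    simp only [Finset.mem_bipartiteAbove, mem_fc, Finset.singleton_subset_iff]
    constructor
    · rintro ⟨⟨hf, hvf⟩, hbf⟩
      exact ⟨hf, pair_sub hvf hbf⟩
    · rintro ⟨hf, hs⟩
      exact ⟨⟨hf, hs (by simp)⟩, hs (by simp)⟩
  have hR : ∀ f ∈ fc Φ {v},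
      (Finset.bipartiteBelow (fun (b : W) (f : Finset W) => b ∈ f) (nb Φ a v j) f).card = 1 := by
    intro f hf
    obtain ⟨hf, hvf⟩ := mem_fc.1 hf
    rw [Finset.singleton_subset_iff] at hvf
    obtain ⟨b, hb, hbj⟩ := rainbow_mem h hr hf hvf j
    rw [Finset.card_eq_one]
    refine ⟨b, ?_⟩
    ext c
    simp only [Finset.mem_bipartiteBelow, Finset.mem_singleton]
    constructor
    · rintro ⟨hc, hcf⟩
      by_contra hne
      exact hr f hf hvf c hcf b hb hne ((mem_nb.1 hc).2.2.trans hbj.symm)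
    · rintro rfl
      have hcv : c ≠ v := by
        rintro rfl
        exact hj hbj.symm
      exact ⟨mem_nb.2 ⟨hcv, pair_edg hf hvf hb hcv.symm, hbj⟩, hb⟩
  rw [Finset.sum_congr rfl hL, Finset.sum_congr rfl hR] at hdc
  simp only [Finset.sum_const, smul_eq_mul, mul_one] at hdc
  omega

end

theorem EX4 : S_DG3 → S_DG4 → S_EUL → S_EX4 := by
  intro h3 h4 hE W _ Φ T a h hT hNF hn hm hnm
  classical
  have hTc := h.three T hT
  have hTv : T ⊆ vts Φ := fun x hx => mem_vts.2 ⟨T, hT, hx⟩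
  obtain ⟨_, hdg3, hsum⟩ := h3 W Φ h
  have hdg4 := h4 W Φ h hNF hn
  have heul := hE W Φ h
  -- the good inner vertices
  set G : Finset W := (vts Φ).filter (fun v => v ∉ T ∧ Rb Φ a v) with hG
  have hGc : (vts Φ \ G).card ≤ 4 := by
    have hsub : vts Φ \ G ⊆ T ∪ (vts Φ).filter (fun v => v ∉ T ∧ ¬ Rb Φ a v) := by
      intro x hx
      rw [Finset.mem_sdiff, hG, Finset.mem_filter] at hx
      rw [Finset.mem_union, Finset.mem_filter]
      by_cases h1 : x ∈ T
      · exact Or.inl h1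
      · right
        refine ⟨hx.1, h1, fun h2 => hx.2 ⟨hx.1, h1, h2⟩⟩
    have hone : ((vts Φ).filter (fun v => v ∉ T ∧ ¬ Rb Φ a v)).card ≤ 1 := by
      rw [Finset.card_le_one]
      intro x hx y hy
      rw [Finset.mem_filter] at hx hy
      exact exc_unique h hT hm hnm hx.2.1 hy.2.1 hx.2.2 hy.2.2
    calc (vts Φ \ G).card ≤ (T ∪ (vts Φ).filter (fun v => v ∉ T ∧ ¬ Rb Φ a v)).card :=
          Finset.card_le_card hsub
      _ ≤ T.card + ((vts Φ).filter (fun v => v ∉ T ∧ ¬ Rb Φ a v)).card := Finset.card_union_le _ _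
      _ ≤ 4 := by omega
  have hGsub : G ⊆ vts Φ := Finset.filter_subset _ _
  have hcard : (vts Φ \ G).card + G.card = (vts Φ).card := Finset.card_sdiff_add_card_eq_card hGsub
  -- a good vertex of degree four
  obtain ⟨v, hvG, hv4⟩ : ∃ v ∈ G, dg Φ v = 4 := by
    by_contra hcon
    push Not at hcon
    have h6 : ∀ v ∈ G, 6 ≤ dg Φ v := by
      intro v hv
      have hv' := hv
      rw [hG, Finset.mem_filter] at hv'
      have h1 := hcon v hv
      have h2 := hdg4 v hv'.1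
      obtain ⟨j, hj⟩ : ∃ j : Fin 3, j ≠ a v := by
        by_cases h0 : a v = 0
        · exact ⟨1, by rw [h0]; decide⟩
        · exact ⟨0, fun hh => h0 hh.symm⟩
      have h5 := two_nb h hv'.2.2 j hj
      rw [(hdg3 v hv'.1).2] at h5
      omega
    have hs1 : 6 * G.card ≤ ∑ v ∈ G, dg Φ v := by
      rw [mul_comm, ← smul_eq_mul, ← Finset.sum_const]
      exact Finset.sum_le_sum h6
    have hs2 : 4 * (vts Φ \ G).card ≤ ∑ v ∈ vts Φ \ G, dg Φ v := by
      rw [mul_comm, ← smul_eq_mul, ← Finset.sum_const]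
      exact Finset.sum_le_sum (fun v hv => hdg4 v (Finset.mem_sdiff.1 hv).1)
    have hs3 : ∑ v ∈ vts Φ \ G, dg Φ v + ∑ v ∈ G, dg Φ v = ∑ v ∈ vts Φ, dg Φ v :=
      Finset.sum_sdiff hGsub
    omega
  rw [hG, Finset.mem_filter] at hvG
  obtain ⟨hv, hvT, hr⟩ := hvG
  have hfc4 : (fc Φ {v}).card = 4 := by rw [(hdg3 v hv).2, hv4]
  -- the two other classes
  obtain ⟨j, k, hj, hk, hjk⟩ : ∃ j k : Fin 3, j ≠ a v ∧ k ≠ a v ∧ j ≠ k := by
    generalize a v = c
    revert c
    decide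
  have hNj := two_nb h hr j hj
  have hNk := two_nb h hr k hk
  rw [hfc4] at hNj hNk
  obtain ⟨y1, y2, hy, hyN⟩ := Finset.card_eq_two.1 (show (nb Φ a v j).card = 2 by omega)
  obtain ⟨z1, z2, hz, hzN⟩ := Finset.card_eq_two.1 (show (nb Φ a v k).card = 2 by omega)
  have hy1 := mem_nb.1 (show y1 ∈ nb Φ a v j by rw [hyN]; simp)
  have hy2 := mem_nb.1 (show y2 ∈ nb Φ a v j by rw [hyN]; simp)
  have hz1 := mem_nb.1 (show z1 ∈ nb Φ a v k by rw [hzN]; simp)
  have hz2 := mem_nb.1 (show z2 ∈ nb Φ a v k by rw [hzN]; simp)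
  refine ⟨v, y1, y2, z1, z2, hv, hvT, hy, hz, hy1.2.2.trans hy2.2.2.symm,
    hz1.2.2.trans hz2.2.2.symm, ?_, ?_, ?_, ?_, ?_⟩
  · rw [hy1.2.2]; exact hj.symm
  · rw [hz1.2.2]; exact hk.symm
  · rw [hy1.2.2, hz1.2.2]; exact hjk
  · apply Finset.eq_of_subset_of_card_le
    · intro f hf
      obtain ⟨hf, hvf⟩ := mem_fc.1 hf
      rw [Finset.singleton_subset_iff] at hvf
      obtain ⟨b, hb, hbj⟩ := rainbow_mem h hr hf hvf j
      obtain ⟨c, hc, hck⟩ := rainbow_mem h hr hf hvf k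
      have hbv : b ≠ v := by rintro rfl; exact hj hbj.symm
      have hcv : c ≠ v := by rintro rfl; exact hk hck.symm
      have hbc : b ≠ c := by rintro rfl; exact hjk (hbj.symm.trans hck)
      have hbN : b ∈ nb Φ a v j := mem_nb.2 ⟨hbv, pair_edg hf hvf hb hbv.symm, hbj⟩
      have hcN : c ∈ nb Φ a v k := mem_nb.2 ⟨hcv, pair_edg hf hvf hc hcv.symm, hck⟩
      rw [hyN, Finset.mem_insert, Finset.mem_singleton] at hbN
      rw [hzN, Finset.mem_insert, Finset.mem_singleton] at hcN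
      have hfeq := eq_triple (h.three f hf) hvf hb hc hbv.symm hcv.symm hbc
      rw [hfeq]
      rcases hbN with rfl | rfl <;> rcases hcN with rfl | rfl <;> simp
    · rw [hfc4]
      exact Finset.card_le_four
  · intro hyy
    have hT3 : ({v, y1, y2} : Finset W).card = 3 :=
      Finset.card_eq_three.2 ⟨v, y1, y2, hy1.1.symm, hy2.1.symm, hy, rfl⟩
    have hmem : ({v, y1, y2} : Finset W) ∈ Φ := by
      apply hNF _ hT3
      intro e he
      rw [Finset.mem_powersetCard] at he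
      obtain ⟨hes, hec⟩ := he
      obtain ⟨x, y, hxy, rfl⟩ := Finset.card_eq_two.1 hec
      have hx := hes (show x ∈ ({x, y} : Finset W) by simp)
      have hy' := hes (show y ∈ ({x, y} : Finset W) by simp)
      simp only [Finset.mem_insert, Finset.mem_singleton] at hx hy'
      rcases hx with rfl | rfl | rfl <;> rcases hy' with rfl | rfl | rfl
      · exact absurd rfl hxy
      · exact hy1.2.1
      · exact hy2.2.1
      · rw [Finset.pair_comm]; exact hy1.2.1
      · exact absurd rfl hxy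
      · exact hyy
      · rw [Finset.pair_comm]; exact hy2.2.1
      · rw [Finset.pair_comm]; exact hyy
      · exact absurd rfl hxy
    exact hr _ hmem (by simp) y1 (by simp) y2 (by simp) hy (hy1.2.2.trans hy2.2.2.symm)

end Pool.Agent.R51.HB
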